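import Pool.Agent.H5.OR.Targets4
import Pool.Agent.H16.ORS.KY

/-!
# MP_e1fd52_al, board ors_modules: row QC
-/

set_option autoImplicit false

open scoped Classical

namespace Pool.Agent.H27.ORS

open ORg
open Pool.Agent.H16.ORS (chE chE_one chE_pow chE_jmp chE_conj)

theorem pf_QC (QN : T_QN) : T_QC := by
  intro m n m' n' β hm hn hm' hn'
  obtain ⟨h1, h2, h3, h4, h5⟩ := QN m n hm hn
  obtain ⟨h1', h2', h3', h4', h5'⟩ := QN m' n' hm' hn'
  obtain ⟨a, ha⟩ : ∃ a, a = m.natAbs := ⟨_, rfl⟩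
  obtain ⟨b, hb⟩ : ∃ b, b = n.natAbs := ⟨_, rfl⟩
  obtain ⟨a', ha'⟩ : ∃ a, a = m'.natAbs := ⟨_, rfl⟩
  obtain ⟨b', hb'⟩ : ∃ b, b = n'.natAbs := ⟨_, rfl⟩
  have A : (|m| : ℤ) = a := by rw [ha, Int.natCast_natAbs]
  have B : (|n| : ℤ) = b := by rw [hb, Int.natCast_natAbs]
  have A' : (|m'| : ℤ) = a' := by rw [ha', Int.natCast_natAbs]
  have B' : (|n'| : ℤ) = b' := by rw [hb', Int.natCast_natAbs]
  rw [← ha, ← hb] at h1 h2 h3
  rw [← hb] at h4
  rw [← ha] at h5
  rw [← ha', ← hb'] at h1' h2' h3'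
  rw [← hb'] at h4'
  rw [← ha'] at h5'
  rw [A] at hm
  rw [B] at hn
  rw [A'] at hm'
  rw [B'] at hn'
  have ha2 : 2 ≤ a := by exact_mod_cast hm
  have hb2 : 2 ≤ b := by exact_mod_cast hn
  have ha2' : 2 ≤ a' := by exact_mod_cast hm'
  have hb2' : 2 ≤ b' := by exact_mod_cast hn'
  -- the characters which jump
  have e1 : (a - 1) * (b - 1) = (a' - 1) * (b' - 1) := by
    rw [← h1, ← h1']
    symm
    refine Nat.card_congr (Equiv.subtypeEquiv (chE β) fun ρ => ?_)
    rw [ne_eq, ne_eq, chE_one, chE_jmp]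
  -- their exponent
  have e2 : ∀ d : ℕ, (∀ ρ : TP m n →* ℂˣ, ρ ≠ 1 → Jmp ρ → ρ ^ d = 1) ↔
      (∀ ρ : TP m' n' →* ℂˣ, ρ ≠ 1 → Jmp ρ → ρ ^ d = 1) := by
    intro d
    constructor
    · intro h ρ hρ hj
      rw [← chE_pow β ρ d]
      refine h _ ?_ ((chE_jmp β ρ).2 hj)
      rw [ne_eq, chE_one]
      exact hρ
    · intro h ρ hρ hj
      obtain ⟨ρ', rfl⟩ := (chE β).surjective ρ
      rw [chE_pow]
      refine h ρ' ?_ ((chE_jmp β ρ').1 hj)
      intro h0
      exact hρ ((chE_one β ρ').2 h0)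
  have e3 : Nat.lcm a b = Nat.lcm a' b' := by
    refine Nat.dvd_antisymm ?_ ?_
    · rw [← h2, e2, h2']
    · rw [← h2', ← e2, h2]
  have e4 : a * b = a' * b' := by
    rw [← h3, ← h3', e3]
    symm
    refine Nat.card_congr (Equiv.subtypeEquiv (chE β) fun ρ => ?_)
    rw [chE_pow]
  -- the arithmetic
  have e5 : ((a : ℤ) - 1) * ((b : ℤ) - 1) = ((a' : ℤ) - 1) * ((b' : ℤ) - 1) := by
    have h6 := congrArg (fun x : ℕ => (x : ℤ)) e1
    simp only [Nat.cast_mul] at h6
    rw [Nat.cast_sub (by omega), Nat.cast_sub (by omega), Nat.cast_sub (by omega),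
      Nat.cast_sub (by omega)] at h6
    simpa using h6
  have e6 : (a : ℤ) * b = a' * b' := by exact_mod_cast e4
  have e7 : ((a : ℤ) - a') * ((a : ℤ) - b') = 0 := by
    linear_combination (a : ℤ) * (e6 - e5) - e6
  have main : (a = a' ∧ b = b') ∨ (a = b' ∧ b = a') := by
    have e8 : (a : ℤ) + b = a' + b' := by linear_combination e6 - e5
    rcases mul_eq_zero.1 e7 with h | h
    · left
      omega
    · right
      omega
  have cnt : ∀ (i j : Bool) (g : TP m' n') (e : ℤ), (e = 1 ∨ e = -1) →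
      β (tg i) = g * tg j ^ e * g⁻¹ →
      Nat.card {ρ : TP m n →* ℂˣ // ρ (tg i) = 1} =
      Nat.card {ρ : TP m' n' →* ℂˣ // ρ (tg j) = 1} := by
    intro i j g e he h
    symm
    refine Nat.card_congr (Equiv.subtypeEquiv (chE β) fun ρ => ?_)
    rw [chE_conj β ρ (tg i) (tg j) g e he h]
  rw [A, B, A', B']
  refine ⟨?_, ?_⟩
  · rcases main with ⟨c, d⟩ | ⟨c, d⟩
    · left
      exact ⟨by exact_mod_cast c, by exact_mod_cast d⟩
    · right
      exact ⟨by exact_mod_cast c, by exact_mod_cast d⟩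
  · intro i j g e he h
    have c := cnt i j g e he h
    rcases i with _ | _ <;> rcases j with _ | _
    · rw [h5, h5'] at c
      refine ⟨fun _ => ⟨by exact_mod_cast (by omega : a = a'),
        by exact_mod_cast (by omega : b = b')⟩, fun h => absurd rfl h⟩
    · rw [h5, h4'] at c
      refine ⟨fun h => absurd h (by simp), fun _ => ⟨by exact_mod_cast (by omega : a = b'),
        by exact_mod_cast (by omega : b = a')⟩⟩
    · rw [h4, h5'] at c
      refine ⟨fun h => absurd h (by simp), fun _ => ⟨by exact_mod_cast (by omega : a = b'),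
        by exact_mod_cast (by omega : b = a')⟩⟩
    · rw [h4, h4'] at c
      refine ⟨fun _ => ⟨by exact_mod_cast (by omega : a = a'),
        by exact_mod_cast (by omega : b = b')⟩, fun h => absurd rfl h⟩

end Pool.Agent.H27.ORS
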